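import Mathlib

set_option autoImplicit false
open Finset

namespace Pool.Agent.Results.MP_4df60b_co.Biased

/-- The ground set `[n]` is `Fin n`, so `[m]` is the set of `x` with `x < m`; `m` is `i - 1`. -/
def P (k n : ℕ) : Type :=
  {A : Finset (Fin n) // ∀ m : ℕ, A.card = k + m → ∀ x : Fin n, (x : ℕ) < m → x ∈ A}

instance (k n : ℕ) : PartialOrder (P k n) := Subtype.partialOrder _
instance (k n : ℕ) : Finite (P k n) := Subtype.finite

def LinExt (Q : Type) [PartialOrder Q] : Type :=
  {r : Q → Q → Prop // IsLinearOrder Q r ∧ ∀ a b, a ≤ b → r a b}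

instance (Q : Type) [PartialOrder Q] [Finite Q] : Finite (LinExt Q) := Subtype.finite
noncomputable instance (Q : Type) [PartialOrder Q] [Finite Q] : Fintype (LinExt Q) :=
  Fintype.ofFinite _

open Classical in
def IsFracRealizer {Q : Type} [PartialOrder Q] [Finite Q] (w : LinExt Q → ℝ) : Prop :=
  (∀ L, 0 ≤ w L) ∧ ∀ a b : Q, ¬ a ≤ b → ¬ b ≤ a → 1 ≤ ∑ L with L.1 b a, w L

noncomputable def fdim (Q : Type) [PartialOrder Q] [Finite Q] : ℝ :=
  sInf {s | ∃ w : LinExt Q → ℝ, IsFracRealizer w ∧ s = ∑ L, w L}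

private def rk {k n : ℕ} (σ : Fin n → Fin (k + 1)) (x : Fin n) : ℕ :=
  if σ x = 0 then x + n else x

private theorem rk_inj {k n : ℕ} (σ : Fin n → Fin (k + 1)) : Function.Injective (rk σ) := by
  intro x y h
  have := x.2
  have := y.2
  unfold rk at h
  apply Fin.ext
  split_ifs at h <;> omega

private def ext {k n : ℕ} (σ : Fin n → Fin (k + 1)) : LinExt (P k n) :=
  ⟨fun a b => toColex (a.1.image (rk σ)) ≤ toColex (b.1.image (rk σ)),
    { refl := fun _ => le_rfl
      trans := fun _ _ _ => le_trans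
      antisymm := fun _ _ h1 h2 => Subtype.ext
        (image_injective (rk_inj σ) (toColex_inj.1 (le_antisymm h1 h2)))
      total := fun _ _ => le_total _ _ },
    fun _ _ h => Colex.toColex_mono (image_subset_image h)⟩

private theorem few {k n : ℕ} (b : P k n) (j : Fin n) (hj : j ∉ b.1) :
    (b.1.filter (j < ·)).card ≤ k := by
  by_contra h
  have h1 : (b.1.filter (j < ·)).card ≤ b.1.card := card_filter_le _ _
  have hb := b.2 (b.1.card - k) (by omega)
  have h2 : b.1.card - k ≤ j := by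
    by_contra c
    exact hj (hb j (by omega))
  have hn : b.1.card - k ≤ n := h2.trans j.2.le
  have h3 : (univ.map (Fin.castLEEmb hn)) ∪ b.1.filter (j < ·) ⊆ b.1 := by
    intro x hx
    rcases mem_union.1 hx with hx | hx
    · obtain ⟨y, _, rfl⟩ := mem_map.1 hx
      exact hb _ y.2
    · exact (mem_filter.1 hx).1
  have h4 := card_le_card h3
  rw [card_union_of_disjoint, card_map, card_univ, Fintype.card_fin] at h4
  · omega
  · rw [disjoint_left]
    intro x hx hx'
    obtain ⟨y, _, rfl⟩ := mem_map.1 hx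
    have a1 : (j : ℕ) < y := (mem_filter.1 hx').2
    have := y.2
    omega

private theorem cnt {k n : ℕ} (j : Fin n) (B : Finset (Fin n)) (hj : j ∉ B) (hB : B.card ≤ k) :
    k ^ k * (k + 1) ^ n ≤ (k + 1) ^ (k + 1) *
      (Fintype.piFinset fun x : Fin n => if x = j then ({0} : Finset (Fin (k + 1)))
        else if x ∈ B then univ.erase 0 else univ).card := by
  rw [Fintype.card_piFinset]
  have e : ∀ x : Fin n, (if x = j then ({0} : Finset (Fin (k + 1)))
        else if x ∈ B then univ.erase 0 else univ).card *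
        (if x ∈ insert j B then k + 1 else 1) = (k + 1) * (if x ∈ B then k else 1) := by
    intro x
    by_cases h1 : x = j
    · subst h1; simp [hj]
    · by_cases h2 : x ∈ B <;> simp [h1, h2, mul_comm]
  have e2 := prod_congr (s₁ := univ) rfl fun x _ => e x
  rw [prod_mul_distrib, prod_mul_distrib, prod_ite_mem, prod_ite_mem] at e2
  simp only [univ_inter, prod_const, card_univ, Fintype.card_fin, card_insert_of_notMem hj] at e2
  obtain ⟨d, rfl⟩ := Nat.exists_eq_add_of_le hB
  have h1 : (#B + d) ^ d ≤ (#B + d + 1) ^ d := Nat.pow_le_pow_left (by omega) d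
  calc (#B + d) ^ (#B + d) * (#B + d + 1) ^ n
      = (#B + d) ^ d * ((#B + d + 1) ^ n * (#B + d) ^ #B) := by ring
    _ ≤ (#B + d + 1) ^ d * ((#B + d + 1) ^ n * (#B + d) ^ #B) := Nat.mul_le_mul_right _ h1
    _ = _ := by rw [← e2]; ring

private theorem bound (k n : ℕ) (hk : 1 ≤ k) :
    fdim (P k n) ≤ ((k : ℝ) + 1) ^ (k + 1) / (k : ℝ) ^ k := by
  classical
  have k0 : (0 : ℝ) < (k : ℝ) ^ k := by positivity
  have k1 : (0 : ℝ) < ((k : ℝ) + 1) ^ n := by positivity
  set c : ℝ := ((k : ℝ) + 1) ^ (k + 1) / ((k : ℝ) ^ k * ((k : ℝ) + 1) ^ n) with hc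
  have c0 : 0 ≤ c := by positivity
  let w : LinExt (P k n) → ℝ := fun L => ∑ σ : Fin n → Fin (k + 1) with ext σ = L, c
  have hw : ∀ s : Finset (LinExt (P k n)), ∑ L ∈ s, w L =
      c * #(univ.filter fun σ : Fin n → Fin (k + 1) => ext σ ∈ s) := by
    intro s
    have := sum_fiberwise_eq_sum_filter univ s (fun σ : Fin n → Fin (k + 1) => ext σ) fun _ => c
    rw [sum_const, nsmul_eq_mul, mul_comm] at this
    exact this
  refine csInf_le ⟨0, ?_⟩ ⟨w, ⟨fun L => sum_nonneg fun _ _ => c0, fun a b h1 _ => ?_⟩, ?_⟩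
  · rintro _ ⟨v, hv, rfl⟩
    exact sum_nonneg fun L _ => hv.1 L
  · obtain ⟨j, hja, hjb⟩ := not_subset.1 (show ¬ a.1 ⊆ b.1 from h1)
    have h2 := cnt j (b.1.filter (j < ·)) (by simp) (few b j hjb)
    have h3 : (Fintype.piFinset fun x : Fin n => if x = j then ({0} : Finset (Fin (k + 1)))
        else if x ∈ b.1.filter (j < ·) then univ.erase 0 else univ) ⊆
        univ.filter fun σ : Fin n → Fin (k + 1) =>
          ext σ ∈ univ.filter fun L : LinExt (P k n) => L.1 b a := by
      intro σ hσ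
      rw [Fintype.mem_piFinset] at hσ
      have s0 : σ j = 0 := by simpa using hσ j
      simp only [mem_filter, mem_univ, true_and]
      refine le_of_lt (Colex.toColex_lt_toColex_iff_exists_forall_lt.2
        ⟨rk σ j, mem_image_of_mem _ hja, fun h => ?_, fun y hy _ => ?_⟩)
      · obtain ⟨x, hx, e⟩ := mem_image.1 h
        exact hjb (rk_inj σ e ▸ hx)
      · obtain ⟨x, hx, rfl⟩ := mem_image.1 hy
        have xj : x ≠ j := fun e => hjb (e ▸ hx)
        have := x.2
        rcases lt_or_gt_of_ne xj with l | l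
        · have : (x : ℕ) < j := l
          unfold rk
          rw [if_pos s0]
          split_ifs <;> omega
        · have t := hσ x
          rw [if_neg xj, if_pos (mem_filter.2 ⟨hx, l⟩)] at t
          unfold rk
          rw [if_pos s0, if_neg (mem_erase.1 t).1]
          omega
    have h4 := h2.trans (Nat.mul_le_mul_left _ (card_le_card h3))
    rw [hw, hc, div_mul_eq_mul_div, le_div_iff₀ (mul_pos k0 k1), one_mul]
    exact_mod_cast h4
  · rw [hw, hc]
    simp only [mem_univ, filter_true, card_univ, Fintype.card_fun, Fintype.card_fin]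
    push_cast
    field_simp

theorem result :
    (∀ k n : ℕ, 1 ≤ k → k + 2 ≤ n → fdim (P k n) ≤ ((k : ℝ) + 1) ^ (k + 1) / (k : ℝ) ^ k) ∧
    ¬ ∀ k : ℕ, 1 ≤ k → ∀ ε : ℝ, 0 < ε → ∃ n₀ : ℕ, ∀ n ≥ n₀, 2 ^ (k + 1) - ε < fdim (P k n) := by
  refine ⟨fun k n hk _ => bound k n hk, fun h => ?_⟩
  obtain ⟨n, hn⟩ := h 2 (by norm_num) 1 one_pos
  have h1 := hn (n + 4) (by omega)
  have h2 := bound 2 (n + 4) (by norm_num)
  generalize fdim (P 2 (n + 4)) = x at h1 h2
  norm_num at h1 h2
  linarith

end Pool.Agent.Results.MP_4df60b_co.Biased
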